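import Pool.Agent.Lib.MP_688fd0_co.Assembly

/-!
Connected graphs of degree two: the successor permutation, and labels that follow given disjoint paths.
-/

set_option autoImplicit false

namespace Pool.Agent.Lib.MP_688fd0_co.OSF.H72

open Classical

universe u v

section succ

variable {V : Type u}

/-- Consecutive pairs of a list are in `pe`. -/
theorem mem_pe_getElem (l : List V) (i : ℕ) (hi : i + 1 < l.length) :
    s(l[i], l[i + 1]) ∈ pe l := by
  induction l generalizing i with
  | nil => simp at hi
  | cons a t ih =>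
    cases t with
    | nil => simp at hi
    | cons b t' =>
      rw [pe_cons_cons, Set.mem_insert_iff]
      cases i with
      | zero => left; rfl
      | succ i =>
        right
        have := ih i (by simpa using hi)
        simpa using this

/-- Cyclically consecutive pairs of a list are in `ce`. -/
theorem mem_ce_getElem (l : List V) (i : ℕ) (hi : i < l.length) :
    s(l[i], l[(i + 1) % l.length]'(Nat.mod_lt _ (by omega))) ∈ ce l := by
  cases l with
  | nil => simp at hi
  | cons a t =>
    rw [ce_cons]
    have h1 : i + 1 < (a :: t ++ [a]).length := by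
      simp only [List.length_append, List.length_cons, List.length_nil] at hi ⊢
      omega
    have h2 := mem_pe_getElem (a :: t ++ [a]) i h1
    have e1 : (a :: t ++ [a])[i]'(by omega) = (a :: t)[i] := List.getElem_append_left hi
    rw [e1] at h2
    by_cases h3 : i + 1 < (a :: t).length
    · have e2 : (a :: t ++ [a])[i + 1] = (a :: t)[i + 1] := List.getElem_append_left h3
      rw [e2] at h2
      have e3 : (i + 1) % (a :: t).length = i + 1 := Nat.mod_eq_of_lt h3
      simp only [e3]
      exact h2
    · have h4 : i + 1 = (a :: t).length := by omega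
      have e2 : (a :: t ++ [a])[i + 1] = a := by
        rw [List.getElem_append_right (by omega)]
        simp [h4]
      rw [e2] at h2
      have e3 : (i + 1) % (a :: t).length = 0 := by rw [h4]; exact Nat.mod_self _
      simp only [e3]
      simpa using h2

/-- A connected graph of degree two has a successor permutation. -/
theorem exists_succ [Fintype V] {Φ : SimpleGraph V} (hdg : ∀ x, dg Φ x = 2)
    (hconn : ∀ x y, Relation.EqvGen (fun a b => Φ.Adj a b) x y) :
    ∃ f : Equiv.Perm V, (∀ x, Φ.Adj x (f x)) ∧ (∀ x y, ∃ k : ℕ, (f : V → V)^[k] x = y) ∧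
      (∀ x y, Φ.Adj x y → y = f x ∨ y = f.symm x) := by
  rcases isEmpty_or_nonempty V with hV | hV
  · exact ⟨1, fun x => (hV.false x).elim, fun x => (hV.false x).elim, fun x => (hV.false x).elim⟩
  obtain ⟨l, hnd, hmem, hce, -⟩ := isHC_of_two_regular (Γ := Φ) (Ω := Φ) (fun _ _ h => h) hdg hconn
  have hmem' : ∀ v, v ∈ l := fun v => (hmem v).2 (Set.mem_univ v)
  have hidx : ∀ v, ∃ i, ∃ hi : i < l.length, l[i] = v := fun v => List.getElem_of_mem (hmem' v)
  have hadj : ∀ x, Φ.Adj x (l.formPerm x) := by
    intro x
    obtain ⟨i, hi, rfl⟩ := hidx x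
    rw [List.formPerm_apply_getElem _ hnd i hi]
    have := hce (mem_ce_getElem l i hi)
    rwa [SimpleGraph.mem_edgeSet] at this
  -- the length is at least three
  have hlen : 3 ≤ l.length := by
    obtain ⟨v⟩ := hV
    have h1 := hdg v
    unfold dg at h1
    obtain ⟨a, b, hab, h2⟩ := Finset.card_eq_two.1 h1
    have ha : Φ.Adj v a := by
      have : a ∈ Finset.univ.filter (fun y => Φ.Adj v y) := by rw [h2]; simp
      exact (Finset.mem_filter.1 this).2
    have hb : Φ.Adj v b := by
      have : b ∈ Finset.univ.filter (fun y => Φ.Adj v y) := by rw [h2]; simp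
      exact (Finset.mem_filter.1 this).2
    have h3 : ({v, a, b} : Finset V).card = 3 := by
      rw [Finset.card_eq_three]
      exact ⟨v, a, b, ha.ne, hb.ne, hab, rfl⟩
    have h4 : ({v, a, b} : Finset V) ⊆ l.toFinset := by
      intro z _
      rw [List.mem_toFinset]; exact hmem' z
    have h5 := Finset.card_le_card h4
    rw [h3, List.toFinset_card_of_nodup hnd] at h5
    exact h5
  refine ⟨l.formPerm, hadj, ?_, ?_⟩
  · intro x y
    obtain ⟨i, hi, rfl⟩ := hidx x
    obtain ⟨j, hj, rfl⟩ := hidx y
    refine ⟨j + l.length - i, ?_⟩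
    rw [← Equiv.Perm.coe_pow, List.formPerm_pow_apply_getElem _ hnd _ i hi]
    have e : (i + (j + l.length - i)) % l.length = j := by
      have : i + (j + l.length - i) = j + l.length := by omega
      rw [this, Nat.add_mod_right, Nat.mod_eq_of_lt hj]
    simp only [e]
  · -- the two neighbours
    intro x y hxy
    by_contra hcon
    push Not at hcon
    obtain ⟨hc1, hc2⟩ := hcon
    have h1 := hadj x
    have h2 : Φ.Adj x (l.formPerm.symm x) := by
      have := hadj (l.formPerm.symm x)
      rw [Equiv.apply_symm_apply] at this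
      exact this.symm
    have h3 : l.formPerm x ≠ l.formPerm.symm x := by
      intro h
      have h4 : l.formPerm (l.formPerm x) = x := by rw [h, Equiv.apply_symm_apply]
      obtain ⟨i, hi, rfl⟩ := hidx x
      have h5 : (l.formPerm ^ 2) l[i] = l[i] := by
        rw [pow_two, Equiv.Perm.mul_apply]; exact h4
      rw [List.formPerm_pow_apply_getElem _ hnd _ i hi] at h5
      have h6 := (List.Nodup.getElem_inj_iff hnd).1 h5
      rcases Nat.lt_or_ge (i + 2) l.length with h7 | h7
      · rw [Nat.mod_eq_of_lt h7] at h6; omega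
      · have h8 : (i + 2) % l.length = i + 2 - l.length := by
          rw [Nat.mod_eq_sub_mod h7, Nat.mod_eq_of_lt (by omega)]
        rw [h8] at h6; omega
    have h4 : ({y, l.formPerm x, l.formPerm.symm x} : Finset V) ⊆
        Finset.univ.filter (fun y => Φ.Adj x y) := by
      intro z hz
      simp only [Finset.mem_insert, Finset.mem_singleton] at hz
      rw [Finset.mem_filter]
      rcases hz with rfl | rfl | rfl
      · exact ⟨Finset.mem_univ _, hxy⟩
      · exact ⟨Finset.mem_univ _, h1⟩
      · exact ⟨Finset.mem_univ _, h2⟩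
    have h5 := Finset.card_le_card h4
    have h6 : ({y, l.formPerm x, l.formPerm.symm x} : Finset V).card = 3 := by
      rw [Finset.card_eq_three]
      exact ⟨_, _, _, hc1, hc2, h3, rfl⟩
    have h7 := hdg x
    unfold dg at h7
    omega

end succ

section paths

variable {Q : Type u} {L : Type v} (d : Q → L → Q) (inv : L → L)

/-- The end of a path. -/
def fn : Q → List L → Q
  | x, [] => x
  | x, g :: l => fn (d x g) l

/-- The vertices of a path. -/
def vt : Q → List L → List Q
  | x, [] => [x]
  | x, g :: l => x :: vt (d x g) l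

/-- The darts of a path. -/
def dt : Q → List L → List (Q × L)
  | _, [] => []
  | x, g :: l => (x, g) :: dt (d x g) l

/-- The labels of the reversed path. -/
def rv (l : List L) : List L := (l.map inv).reverse

theorem rv_cons (g : L) (l : List L) : rv inv (g :: l) = rv inv l ++ [inv g] := by
  simp [rv]

theorem fn_append (x : Q) (l l' : List L) : fn d x (l ++ l') = fn d (fn d x l) l' := by
  induction l generalizing x with
  | nil => rfl
  | cons g l ih => exact ih _

theorem dt_append (x : Q) (l l' : List L) : dt d x (l ++ l') = dt d x l ++ dt d (fn d x l) l' := by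
  induction l generalizing x with
  | nil => rfl
  | cons g l ih => rw [List.cons_append, dt, dt, List.cons_append, ih]; rfl

theorem vt_head (x : Q) (l : List L) : ∃ t, vt d x l = x :: t := by
  cases l with
  | nil => exact ⟨[], rfl⟩
  | cons g l => exact ⟨_, rfl⟩

theorem mem_vt_of_mem_dt {x : Q} {l : List L} {p : Q × L} (hp : p ∈ dt d x l) : p.1 ∈ vt d x l := by
  induction l generalizing x with
  | nil => simp [dt] at hp
  | cons g l ih =>
    rw [dt, List.mem_cons] at hp
    rw [vt, List.mem_cons]
    rcases hp with rfl | hp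
    · exact Or.inl rfl
    · exact Or.inr (ih hp)

theorem mem_vt_of_mem_dt' {x : Q} {l : List L} {p : Q × L} (hp : p ∈ dt d x l) :
    d p.1 p.2 ∈ vt d x l := by
  induction l generalizing x with
  | nil => simp [dt] at hp
  | cons g l ih =>
    rw [dt, List.mem_cons] at hp
    rw [vt, List.mem_cons]
    rcases hp with rfl | hp
    · right
      obtain ⟨t, ht⟩ := vt_head d (d x g) l
      change d x g ∈ _
      rw [ht]; exact List.mem_cons_self
    · exact Or.inr (ih hp)

theorem dt_inj {x : Q} {l : List L} (hnd : (vt d x l).Nodup) {p p' : Q × L} (hp : p ∈ dt d x l)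
    (hp' : p' ∈ dt d x l) (h : p.1 = p'.1) : p = p' := by
  induction l generalizing x with
  | nil => simp [dt] at hp
  | cons g l ih =>
    rw [vt, List.nodup_cons] at hnd
    rw [dt, List.mem_cons] at hp hp'
    rcases hp with rfl | hp
    · rcases hp' with rfl | hp'
      · rfl
      · exfalso
        apply hnd.1
        have := mem_vt_of_mem_dt d hp'
        rw [← h] at this
        exact this
    · rcases hp' with rfl | hp'
      · exfalso
        apply hnd.1
        have := mem_vt_of_mem_dt d hp
        rw [h] at this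
        exact this
      · exact ih hnd.2 hp hp'

/-- The targets of darts are distinct. -/
theorem dt_inj' {x : Q} {l : List L} (hnd : (vt d x l).Nodup) {p p' : Q × L} (hp : p ∈ dt d x l)
    (hp' : p' ∈ dt d x l) (h : d p.1 p.2 = d p'.1 p'.2) : p = p' := by
  induction l generalizing x with
  | nil => simp [dt] at hp
  | cons g l ih =>
    rw [vt, List.nodup_cons] at hnd
    have key : ∀ p : Q × L, p ∈ dt d (d x g) l → d x g ≠ d p.1 p.2 := by
      intro p hp he
      cases l with
      | nil => simp [dt] at hp
      | cons g' l' =>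
        have hnd2 := hnd.2
        rw [vt, List.nodup_cons] at hnd2
        rw [dt, List.mem_cons] at hp
        apply hnd2.1
        rcases hp with rfl | hp
        · obtain ⟨t, ht⟩ := vt_head d (d (d x g) g') l'
          have he' : d x g = d (d x g) g' := he
          rw [ht, ← he']
          exact List.mem_cons_self
        · have h5 := mem_vt_of_mem_dt' d hp
          rw [← he] at h5
          exact h5
    rw [dt, List.mem_cons] at hp hp'
    rcases hp with rfl | hp
    · rcases hp' with rfl | hp'
      · rfl
      · exact absurd h (key p' hp')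
    · rcases hp' with rfl | hp'
      · exact absurd h.symm (key p hp)
      · exact ih hnd.2 hp hp'

variable {inv}

theorem fn_rv (hinv : ∀ x a, d (d x a) (inv a) = x) (x : Q) (l : List L) :
    fn d (fn d x l) (rv inv l) = x := by
  induction l generalizing x with
  | nil => rfl
  | cons g l ih =>
    rw [rv_cons, fn_append]
    change fn d (fn d (fn d (d x g) l) (rv inv l)) [inv g] = x
    rw [ih]
    exact hinv x g

theorem mem_dt_rv (hinv : ∀ x a, d (d x a) (inv a) = x) {x : Q} {l : List L} {p : Q × L}
    (hp : p ∈ dt d (fn d x l) (rv inv l)) :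
    ∃ p' ∈ dt d x l, p = (d p'.1 p'.2, inv p'.2) := by
  induction l generalizing x with
  | nil => simp [dt, rv] at hp
  | cons g l ih =>
    rw [rv_cons, dt_append] at hp
    change p ∈ dt d (fn d (d x g) l) (rv inv l) ++ dt d (fn d (fn d (d x g) l) (rv inv l)) [inv g] at hp
    rw [fn_rv d hinv, List.mem_append] at hp
    rcases hp with hp | hp
    · obtain ⟨p', hp', e⟩ := ih hp
      exact ⟨p', by rw [dt]; exact List.mem_cons_of_mem _ hp', e⟩
    · simp only [dt, List.mem_cons, List.not_mem_nil, or_false] at hp
      exact ⟨(x, g), by rw [dt]; exact List.mem_cons_self, hp⟩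

/-- A path in a graph of degree two which starts along `f` goes on along `f`. -/
theorem follow {Φ : SimpleGraph Q} {f : Equiv.Perm Q} (hf : ∀ x y, Φ.Adj x y → y = f x ∨ y = f.symm x)
    {x : Q} {g : L} {l : List L} (hc : List.IsChain Φ.Adj (vt d x (g :: l)))
    (hnd : (vt d x (g :: l)).Nodup) (h0 : f x = d x g) :
    ∀ p ∈ dt d x (g :: l), f p.1 = d p.1 p.2 := by
  induction l generalizing x g with
  | nil =>
    intro p hp
    simp only [dt, List.mem_cons, List.not_mem_nil, or_false] at hp
    subst hp
    exact h0
  | cons g' l ih =>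
    intro p hp
    rw [dt, List.mem_cons] at hp
    rcases hp with rfl | hp
    · exact h0
    · have hc' : List.IsChain Φ.Adj (vt d (d x g) (g' :: l)) := by
        rw [vt, vt, List.isChain_cons_cons] at hc
        rw [vt]
        exact hc.2
      have hnd' : (vt d (d x g) (g' :: l)).Nodup := by
        rw [vt, List.nodup_cons] at hnd
        exact hnd.2
      refine ih hc' hnd' ?_ p hp
      have hadj : Φ.Adj (d x g) (d (d x g) g') := by
        obtain ⟨t, ht⟩ := vt_head d (d (d x g) g') l
        rw [vt, ht, List.isChain_cons_cons] at hc'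
        exact hc'.1
      rcases hf _ _ hadj with h1 | h1
      · exact h1.symm
      · exfalso
        rw [vt, List.nodup_cons] at hnd
        apply hnd.1
        have h2 : d (d x g) g' = x := by rw [h1, ← h0, Equiv.symm_apply_apply]
        obtain ⟨t, ht⟩ := vt_head d (d (d x g) g') l
        rw [vt, ht, h2]
        exact List.mem_cons_of_mem _ List.mem_cons_self

/-- **ORIENT**, abstract form. -/
theorem orientA [Fintype Q] (hinv : ∀ x a, d (d x a) (inv a) = x) {Φ : SimpleGraph Q}
    (hdg : ∀ x, dg Φ x = 2) (hconn : ∀ x y, Relation.EqvGen (fun a b => Φ.Adj a b) x y)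
    (hlab : ∀ x y, Φ.Adj x y → ∃ g, y = d x g)
    (S : List (Q × List L)) (hne : ∀ s ∈ S, s.2 ≠ [])
    (hnd : (S.flatMap fun s => vt d s.1 s.2).Nodup)
    (hc : ∀ s ∈ S, List.IsChain Φ.Adj (vt d s.1 s.2)) :
    ∃ lab : Q → L, (∀ x y, ∃ k : ℕ, (fun z => d z (lab z))^[k] x = y) ∧
      ∀ s ∈ S, ∃ b : Bool, ∀ p ∈ (if b then dt d s.1 s.2 else dt d (fn d s.1 s.2) (rv inv s.2)),
        lab p.1 = p.2 := by
  obtain ⟨f, hadj, htr, hnb⟩ := exists_succ hdg hconn
  rw [List.nodup_flatMap] at hnd
  obtain ⟨hnd1, hnd2⟩ := hnd
  -- directions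
  have hdir : ∀ s ∈ S, ∃ b : Bool, ∀ p ∈ (if b then dt d s.1 s.2 else
      dt d (fn d s.1 s.2) (rv inv s.2)), f p.1 = d p.1 p.2 := by
    intro s hs
    obtain ⟨x, l⟩ := s
    cases l with
    | nil => exact absurd rfl (hne _ hs)
    | cons g l =>
      have hcs := hc _ hs
      have hnds := hnd1 _ hs
      have h1 : Φ.Adj x (d x g) := by
        obtain ⟨t, ht⟩ := vt_head d (d x g) l
        have hcs' := hcs
        simp only [vt] at hcs'
        rw [ht, List.isChain_cons_cons] at hcs'
        exact hcs'.1
      rcases hnb _ _ h1 with h2 | h2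
      · exact ⟨true, by
          rw [if_pos rfl]
          exact follow d hnb hcs hnds h2.symm⟩
      · refine ⟨false, ?_⟩
        rw [if_neg (by decide)]
        have h3 := follow (f := f.symm) d (fun x y h => by
          rw [Equiv.symm_symm]; exact (hnb x y h).symm) hcs hnds h2.symm
        intro p hp
        obtain ⟨p', hp', rfl⟩ := mem_dt_rv d hinv hp
        have h4 := h3 p' hp'
        change f (d p'.1 p'.2) = d (d p'.1 p'.2) (inv p'.2)
        rw [hinv, ← h4, Equiv.apply_symm_apply]
  choose! dir hdir using hdir
  set D : Q → L → Prop := fun x g => ∃ s ∈ S, (x, g) ∈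
    (if dir s then dt d s.1 s.2 else dt d (fn d s.1 s.2) (rv inv s.2)) with hD
  -- the vertex of a directed dart
  have hDv : ∀ s, ∀ x g, (x, g) ∈ (if dir s then dt d s.1 s.2 else
      dt d (fn d s.1 s.2) (rv inv s.2)) → x ∈ vt d s.1 s.2 := by
    intro s x g h
    split_ifs at h with hb
    · exact mem_vt_of_mem_dt d h
    · obtain ⟨p', hp', e⟩ := mem_dt_rv d hinv h
      rw [Prod.mk.injEq] at e
      rw [e.1]
      exact mem_vt_of_mem_dt' d hp'
  have huniq : ∀ x g g', D x g → D x g' → g = g' := by
    rintro x g g' ⟨s, hs, h⟩ ⟨s', hs', h'⟩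
    have hss : s = s' := by
      by_contra hne'
      have : Std.Symm (Function.onFun List.Disjoint (fun s : Q × List L => vt d s.1 s.2)) :=
        ⟨fun a b hab => List.Disjoint.symm hab⟩
      have h1 : Function.onFun List.Disjoint (fun s => vt d s.1 s.2) s s' :=
        List.Pairwise.forall hnd2 hs hs' hne'
      exact h1 (hDv s x g h) (hDv s' x g' h')
    subst hss
    have hn := hnd1 s hs
    split_ifs at h h' with hb
    · have := dt_inj d hn h h' rfl
      rw [Prod.mk.injEq] at this
      exact this.2
    · obtain ⟨p, hp, e⟩ := mem_dt_rv d hinv h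
      obtain ⟨p', hp', e'⟩ := mem_dt_rv d hinv h'
      rw [Prod.mk.injEq] at e e'
      have h1 := dt_inj' d hn hp hp' (e.1.symm.trans e'.1)
      rw [e.2, e'.2, h1]
  have hDf : ∀ x g, D x g → f x = d x g := by
    rintro x g ⟨s, hs, h⟩
    exact hdir s hs _ h
  have hex : ∀ x, ∃ g, f x = d x g ∧ ∀ g', D x g' → g = g' := by
    intro x
    by_cases h : ∃ g, D x g
    · obtain ⟨g, hg⟩ := h
      exact ⟨g, hDf x g hg, fun g' hg' => huniq x g g' hg hg'⟩
    · obtain ⟨g, hg⟩ := hlab _ _ (hadj x)
      exact ⟨g, hg, fun g' hg' => absurd ⟨g', hg'⟩ h⟩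
  choose lab hl1 hl2 using hex
  refine ⟨lab, ?_, ?_⟩
  · have e : (fun z => d z (lab z)) = f := by
      funext z; exact (hl1 z).symm
    rw [e]
    exact htr
  · intro s hs
    refine ⟨dir s, ?_⟩
    intro p hp
    exact hl2 _ _ ⟨s, hs, hp⟩

end paths

end Pool.Agent.Lib.MP_688fd0_co.OSF.H72
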