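import Pool.Agent.Lib.MP_688fd0_co.OSF.Iface
import Pool.Agent.Lib.MP_688fd0_co.OSF.H72.OrientA

/-!
ORIENT: a connected graph of degree two is a tour.
-/

set_option autoImplicit false

namespace Pool.Agent.Lib.MP_688fd0_co.OSF.H72

universe u v

section

variable {Q : Type u} [Group Q] (B : Lb.{u, v} Q)

/-- One step. -/
abbrev stp (x : Q) (g : B.L) : Q := x * B.q g

theorem fin_eq (x : Q) (l : List B.L) : B.fin x l = fn (stp B) x l := by
  induction l generalizing x with
  | nil => rfl
  | cons g l ih => exact ih _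

theorem verts_eq (x : Q) (l : List B.L) : B.verts x l = vt (stp B) x l := by
  induction l generalizing x with
  | nil => rfl
  | cons g l ih =>
    change x :: B.verts (x * B.q g) l = x :: vt (stp B) (stp B x g) l
    rw [ih]

theorem rev_eq (l : List B.L) : B.rev l = rv B.inv l := rfl

theorem fol_of (T : Tour B) (x : Q) (l : List B.L) (h : ∀ p ∈ dt (stp B) x l, T.lab p.1 = p.2) :
    T.Fol x l := by
  induction l generalizing x with
  | nil => exact trivial
  | cons g l ih =>
    refine ⟨h (x, g) ?_, ih _ ?_⟩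
    · rw [dt]; exact List.mem_cons_self
    · intro p hp
      apply h
      rw [dt]
      exact List.mem_cons_of_mem _ hp

end

/-- **ORIENT.** -/
theorem orient : OrientS.{u, v} := by
  intro Q _ _ B Φ hdg hconn hlab S hne hnd hc
  have hinv : ∀ x a, stp B (stp B x a) (B.inv a) = x := by
    intro x a
    change x * B.q a * B.q (B.inv a) = x
    rw [B.q_inv, mul_inv_cancel_right]
  have hnd' : (S.flatMap fun s => vt (stp B) s.1 s.2).Nodup := by
    have e : (S.flatMap fun s => vt (stp B) s.1 s.2) = S.flatMap fun s => B.verts s.1 s.2 := by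
      congr 1
      funext s
      exact (verts_eq B s.1 s.2).symm
    rw [e]; exact hnd
  obtain ⟨lab, h1, h2⟩ := orientA (stp B) (inv := B.inv) hinv hdg hconn hlab S hne hnd'
    (fun s hs => by rw [← verts_eq]; exact hc s hs)
  refine ⟨⟨lab, h1⟩, ?_⟩
  intro s hs
  obtain ⟨b, hb⟩ := h2 s hs
  refine ⟨b, ?_⟩
  cases b with
  | true =>
    rw [if_pos rfl] at hb
    unfold Tour.Pass
    rw [if_pos rfl]
    exact fol_of B ⟨lab, h1⟩ _ _ hb
  | false =>
    rw [if_neg (by decide)] at hb
    unfold Tour.Pass
    rw [if_neg (by decide), fin_eq, rev_eq]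
    exact fol_of B ⟨lab, h1⟩ _ _ hb

end Pool.Agent.Lib.MP_688fd0_co.OSF.H72
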